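import Pool.Agent.L7h98.SY.Stm

/-!
# Project SY, part BAS: basic facts on a dual pair
-/

set_option autoImplicit false

namespace Pool.Agent.L7h69.SY

open scoped InnerProductSpace
open Module Classical Pool.Agent.L7h98.SY

lemma mem_T {A : Finset E3} {y x : E3} : x ∈ T A y ↔ x ∈ A ∧ ⟪y, x⟫_ℝ = 1 := by
  unfold T
  rw [Finset.mem_filter]

/-- the inner product with a fixed vector is at most one on a convex hull if it is on the points -/
lemma le_on_hull {A : Set E3} {y : E3} {c : ℝ} (h : ∀ a ∈ A, ⟪y, a⟫_ℝ ≤ c) :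
    ∀ x ∈ convexHull ℝ A, ⟪y, x⟫_ℝ ≤ c := by
  intro x hx
  have hc : Convex ℝ {x : E3 | ⟪y, x⟫_ℝ ≤ c} := by
    apply convex_halfSpace_le
    exact (innerₛₗ ℝ y).isLinear
  exact convexHull_min (fun a ha => h a ha) hc hx

/-- in a convex hull the points where an exposing functional is one -/
lemma eq_of_expose {A : Finset E3} {x h : E3} (hh : h ∈ A) (h1 : ⟪h, x⟫_ℝ = 1)
    (h2 : ∀ h' ∈ A, h' ≠ h → ⟪h', x⟫_ℝ < 1) {p : E3} (hp : p ∈ convexHull ℝ (A : Set E3))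
    (hp1 : ⟪p, x⟫_ℝ = 1) : p = h := by
  rw [Finset.convexHull_eq] at hp
  obtain ⟨w, hw0, hw1, hw2⟩ := hp
  rw [Finset.centerMass_eq_of_sum_1 _ _ hw1] at hw2
  have h3 : ∑ a ∈ A, w a * ⟪a, x⟫_ℝ = 1 := by
    rw [← hp1, ← hw2, sum_inner]
    apply Finset.sum_congr rfl
    intro a _
    rw [id, real_inner_smul_left]
  have h4 : ∑ a ∈ A, w a * (1 - ⟪a, x⟫_ℝ) = 0 := by
    have : ∀ a ∈ A, w a * (1 - ⟪a, x⟫_ℝ) = w a - w a * ⟪a, x⟫_ℝ := fun a _ => by ring
    rw [Finset.sum_congr rfl this, Finset.sum_sub_distrib, hw1, h3, sub_self]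
  have h5 : ∀ a ∈ A, 0 ≤ w a * (1 - ⟪a, x⟫_ℝ) := by
    intro a ha
    apply mul_nonneg (hw0 a ha)
    by_cases hah : a = h
    · rw [hah, h1, sub_self]
    · linarith [h2 a ha hah]
  have h6 := (Finset.sum_eq_zero_iff_of_nonneg h5).1 h4
  have h7 : ∀ a ∈ A, a ≠ h → w a = 0 := by
    intro a ha hah
    rcases mul_eq_zero.1 (h6 a ha) with h8 | h8
    · exact h8
    · linarith [h2 a ha hah]
  have h8 : w h = 1 := by
    rw [← hw1]
    exact (Finset.sum_eq_single_of_mem h hh fun a ha hah => h7 a ha hah).symm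
  rw [← hw2, Finset.sum_eq_single_of_mem h hh fun a ha hah => by rw [h7 a ha hah, zero_smul], h8]
  simp

/-- finitely many strict inequalities survive a small perturbation -/
lemma exists_small {A : Finset E3} {h z : E3} (hA : ∀ v ∈ A, ⟪h, v⟫_ℝ ≤ 1)
    (hz : ∀ v ∈ A, ⟪h, v⟫_ℝ = 1 → ⟪z, v⟫_ℝ = 0) :
    ∃ δ : ℝ, 0 < δ ∧ ∀ v ∈ A, ⟪h + δ • z, v⟫_ℝ ≤ 1 ∧ ⟪h - δ • z, v⟫_ℝ ≤ 1 := by
  have key : ∀ v ∈ A, ∀ᶠ δ : ℝ in nhdsWithin 0 (Set.Ioi 0),
      ⟪h + δ • z, v⟫_ℝ ≤ 1 ∧ ⟪h - δ • z, v⟫_ℝ ≤ 1 := by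
    intro v hv
    by_cases h1 : ⟪h, v⟫_ℝ = 1
    · apply Filter.Eventually.of_forall
      intro δ
      rw [inner_add_left, inner_sub_left, real_inner_smul_left, hz v hv h1, h1]
      simp
    · have h2 : ⟪h, v⟫_ℝ < 1 := lt_of_le_of_ne (hA v hv) h1
      have h3 : Filter.Tendsto (fun δ : ℝ => ⟪h, v⟫_ℝ + δ * ⟪z, v⟫_ℝ) (nhdsWithin 0 (Set.Ioi 0))
          (nhds ⟪h, v⟫_ℝ) := by
        have : Filter.Tendsto (fun δ : ℝ => ⟪h, v⟫_ℝ + δ * ⟪z, v⟫_ℝ) (nhds 0)
            (nhds (⟪h, v⟫_ℝ + 0 * ⟪z, v⟫_ℝ)) :=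
          (Continuous.tendsto (by fun_prop) 0)
        rw [zero_mul, add_zero] at this
        exact this.mono_left nhdsWithin_le_nhds
      have h4 : Filter.Tendsto (fun δ : ℝ => ⟪h, v⟫_ℝ - δ * ⟪z, v⟫_ℝ) (nhdsWithin 0 (Set.Ioi 0))
          (nhds ⟪h, v⟫_ℝ) := by
        have : Filter.Tendsto (fun δ : ℝ => ⟪h, v⟫_ℝ - δ * ⟪z, v⟫_ℝ) (nhds 0)
            (nhds (⟪h, v⟫_ℝ - 0 * ⟪z, v⟫_ℝ)) :=
          (Continuous.tendsto (by fun_prop) 0)
        rw [zero_mul, sub_zero] at this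
        exact this.mono_left nhdsWithin_le_nhds
      filter_upwards [h3.eventually (gt_mem_nhds h2), h4.eventually (gt_mem_nhds h2)] with δ e1 e2
      rw [inner_add_left, inner_sub_left, real_inner_smul_left]
      exact ⟨e1.le, e2.le⟩
  have h5 := (Filter.eventually_all_finset A).2 key
  obtain ⟨δ, h6, h7⟩ := (h5.and self_mem_nhdsWithin).exists
  exact ⟨δ, h7, h6⟩

/-- BAS (1) -/
lemma bas1 {V H : Finset E3} (p : Pair V H) : ∀ h ∈ H, ∀ z : E3,
    (∀ v ∈ T V h, ⟪z, v⟫_ℝ = 0) → z = 0 := by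
  intro h hh z hz
  obtain ⟨δ, hδ, h1⟩ := exists_small (A := V) (h := h) (z := z) (fun v hv => p.le v hv h hh)
    (fun v hv h1 => hz v (mem_T.2 ⟨hv, h1⟩))
  obtain ⟨x, hx1, hx2⟩ := p.expH h hh
  have hx : ∀ h' ∈ H, ⟪h', x⟫_ℝ ≤ 1 := by
    intro h' hh'
    by_cases e : h' = h
    · rw [e, hx1]
    · exact (hx2 h' hh' e).le
  have hull := fun y (hy : y ∈ convexHull ℝ (H : Set E3)) => by
    have := le_on_hull (A := (H : Set E3)) (y := x) (c := 1) (fun a ha => by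
      rw [real_inner_comm]; exact hx a ha) y hy
    rwa [real_inner_comm] at this
  have ha : h + δ • z ∈ convexHull ℝ (H : Set E3) := p.hullH _ fun v hv => (h1 v hv).1
  have hb : h - δ • z ∈ convexHull ℝ (H : Set E3) := p.hullH _ fun v hv => (h1 v hv).2
  have ha1 := hull _ ha
  have hb1 := hull _ hb
  rw [inner_add_left, real_inner_smul_left, hx1] at ha1
  rw [inner_sub_left, real_inner_smul_left, hx1] at hb1
  have h0 : δ * ⟪z, x⟫_ℝ = 0 := by linarith
  have hp1 : ⟪h + δ • z, x⟫_ℝ = 1 := by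
    rw [inner_add_left, real_inner_smul_left, hx1, h0, add_zero]
  have h2 := eq_of_expose hh hx1 hx2 ha hp1
  have h3 : δ • z = 0 := by
    have := congrArg (fun y => y - h) h2
    simpa using this
  rcases smul_eq_zero.1 h3 with h4 | h4
  · exact absurd h4 hδ.ne'
  · exact h4

/-- a set with trivial orthogonal complement spans -/
lemma span_top {A : Set E3} (h : ∀ z : E3, (∀ v ∈ A, ⟪z, v⟫_ℝ = 0) → z = 0) :
    Submodule.span ℝ A = ⊤ := by
  rw [← Submodule.orthogonal_eq_bot_iff, Submodule.eq_bot_iff]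
  intro z hz
  apply h
  intro v hv
  rw [Submodule.mem_orthogonal] at hz
  rw [real_inner_comm]
  exact hz v (Submodule.subset_span hv)

/-- a linearly independent triple in a spanning set -/
lemma exists_triple {A : Set E3} (h : Submodule.span ℝ A = ⊤) :
    ∃ f : Fin 3 → E3, (∀ i, f i ∈ A) ∧ LinearIndependent ℝ f := by
  obtain ⟨b, hbA, hbs, hbl⟩ := exists_linearIndependent ℝ A
  have hbas : Basis b ℝ E3 := Basis.mk hbl (by
    rw [Subtype.range_coe, hbs, h])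
  have hfin : finrank ℝ E3 = 3 := by simp [E3]
  haveI : Fintype b := FiniteDimensional.fintypeBasisIndex hbas
  have hcard : Fintype.card b = 3 := by
    rw [← finrank_eq_card_basis hbas, hfin]
  let e : Fin 3 ≃ b := (Fintype.equivFinOfCardEq hcard).symm
  refine ⟨fun i => (e i : E3), fun i => hbA (e i).2, ?_⟩
  exact hbl.comp e e.injective

theorem s_BAS : S_BAS := by
  intro V H p
  have h1 := bas1 p
  have hspan : ∀ h ∈ H, Submodule.span ℝ (T V h : Set E3) = ⊤ := fun h hh =>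
    span_top fun z hz => h1 h hh z fun v hv => hz v hv
  have h6 : ∀ h ∈ H, ∃ f : Fin 3 → E3, (∀ i, f i ∈ T V h) ∧ LinearIndependent ℝ f :=
    fun h hh => exists_triple (hspan h hh)
  have h3 : convexHull ℝ (V : Set E3) = {x | ∀ h ∈ H, ⟪h, x⟫_ℝ ≤ 1} := by
    apply Set.Subset.antisymm
    · intro x hx h hh
      exact le_on_hull (fun a ha => p.le a ha h hh) x hx
    · intro x hx
      exact p.hullV x hx
  refine ⟨h1, ?_, h3, ?_, ?_, h6⟩
  · intro h hh
    obtain ⟨f, hf, hfl⟩ := h6 h hh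
    have : (Finset.univ.image f).card = 3 := by
      rw [Finset.card_image_of_injective _ hfl.injective]
      simp
    rw [← this]
    apply Finset.card_le_card
    intro x hx
    rw [Finset.mem_image] at hx
    obtain ⟨i, _, rfl⟩ := hx
    exact hf i
  · rw [h3, mem_interior_iff_mem_nhds]
    have : ∀ h ∈ H, ∀ᶠ x : E3 in nhds 0, ⟪h, x⟫_ℝ ≤ 1 := by
      intro h _
      have hc : Filter.Tendsto (fun x : E3 => ⟪h, x⟫_ℝ) (nhds 0) (nhds ⟪h, 0⟫_ℝ) :=
        Continuous.tendsto (by fun_prop) 0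
      rw [inner_zero_right] at hc
      exact (hc.eventually (gt_mem_nhds one_pos)).mono fun x hx => le_of_lt hx
    exact (Filter.eventually_all_finset H).2 this
  · intro h hh y hy
    have := h1 h hh (y - h) (by
      intro v hv
      rw [inner_sub_left, hy v hv, (mem_T.1 hv).2, sub_self])
    exact sub_eq_zero.1 this

end Pool.Agent.L7h69.SY
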