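import Pool.Agent.L7h69.SY.Bas

/-!
# Project SY, part EX: existence of a dual pair
-/

set_option autoImplicit false

namespace Pool.Agent.L7h69.SY

open scoped InnerProductSpace
open Module Classical Pool.Agent.L7h98.SY

/-- separation of a point from a compact convex set, with an inner product -/
lemma sep {A : Set E3} (hA : Convex ℝ A) (hAc : IsClosed A) {x : E3} (hx : x ∉ A) :
    ∃ (y : E3) (c : ℝ), (∀ a ∈ A, ⟪y, a⟫_ℝ < c) ∧ c < ⟪y, x⟫_ℝ := by
  obtain ⟨f, c, h1, h2⟩ := geometric_hahn_banach_closed_point hA hAc hx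
  refine ⟨(InnerProductSpace.toDual ℝ E3).symm f, c, fun a ha => ?_, ?_⟩
  · rw [InnerProductSpace.toDual_symm_apply]
    exact h1 a ha
  · rw [InnerProductSpace.toDual_symm_apply]
    exact h2

/-- a nonzero functional is positive somewhere near zero -/
lemma pos_near {A : Set E3} (hA : (0 : E3) ∈ interior A) {y : E3} (hy : y ≠ 0) :
    ∃ a ∈ A, 0 < ⟪y, a⟫_ℝ := by
  have hc : Filter.Tendsto (fun t : ℝ => t • y) (nhdsWithin 0 (Set.Ioi 0)) (nhds 0) := by
    have h1 : Continuous (fun t : ℝ => t • y) := by fun_prop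
    have h2 := h1.tendsto 0
    rw [zero_smul] at h2
    exact h2.mono_left nhdsWithin_le_nhds
  obtain ⟨t, ht1, ht2⟩ := ((hc.eventually (mem_interior_iff_mem_nhds.1 hA)).and
    self_mem_nhdsWithin).exists
  refine ⟨t • y, ht1, ?_⟩
  rw [real_inner_smul_right]
  have h3 : 0 < ⟪y, y⟫_ℝ := real_inner_self_pos.2 hy
  exact mul_pos ht2 h3

lemma finite_hull_closed (A : Finset E3) : IsClosed (convexHull ℝ (A : Set E3)) :=
  Set.Finite.isClosed_convexHull ℝ A.finite_toSet

/-- the minimal subset with the same convex hull -/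
lemma exists_min (S : Finset E3) : ∃ V : Finset E3, V ⊆ S ∧
    convexHull ℝ (V : Set E3) = convexHull ℝ (S : Set E3) ∧
    ∀ v ∈ V, v ∉ convexHull ℝ ((V.erase v : Finset E3) : Set E3) := by
  let P : Finset (Finset E3) := S.powerset.filter fun V =>
    convexHull ℝ (V : Set E3) = convexHull ℝ (S : Set E3)
  have hP : P.Nonempty := ⟨S, by simp [P]⟩
  obtain ⟨V, hV, hmin⟩ := P.exists_min_image Finset.card hP
  simp only [P, Finset.mem_filter, Finset.mem_powerset] at hV hmin
  refine ⟨V, hV.1, hV.2, fun v hv hcon => ?_⟩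
  have h1 : convexHull ℝ ((V.erase v : Finset E3) : Set E3) = convexHull ℝ (V : Set E3) := by
    apply Set.Subset.antisymm
    · exact convexHull_mono (by exact_mod_cast Finset.erase_subset v V)
    · apply convexHull_min _ (convex_convexHull ℝ _)
      intro a ha
      by_cases hav : a = v
      · rw [hav]; exact hcon
      · exact subset_convexHull ℝ _ (by
          rw [Finset.mem_coe, Finset.mem_erase]
          exact ⟨hav, ha⟩)
  have h2 := hmin (V.erase v) ⟨(Finset.erase_subset v V).trans hV.1, by rw [h1, hV.2]⟩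
  have h3 := Finset.card_erase_lt_of_mem hv
  omega

theorem s_EX : S_EX := by
  intro S hS
  obtain ⟨V, hVS, hVc, hVmin⟩ := exists_min S
  rw [← hVc] at hS
  -- exposing functionals for `V`
  have hexpV : ∀ v ∈ V, ∃ y : E3, ⟪y, v⟫_ℝ = 1 ∧ ∀ v' ∈ V, v' ≠ v → ⟪y, v'⟫_ℝ < 1 := by
    intro v hv
    obtain ⟨y, c, h1, h2⟩ := sep (convex_convexHull ℝ _) (finite_hull_closed (V.erase v))
      (hVmin v hv)
    have h3 : ∀ v' ∈ V, v' ≠ v → ⟪y, v'⟫_ℝ < c := fun v' hv' hne =>
      h1 v' (subset_convexHull ℝ _ (by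
        rw [Finset.mem_coe, Finset.mem_erase]
        exact ⟨hne, hv'⟩))
    have hle : ∀ v' ∈ V, ⟪y, v'⟫_ℝ ≤ ⟪y, v⟫_ℝ := by
      intro v' hv'
      by_cases e : v' = v
      · rw [e]
      · exact ((h3 v' hv' e).trans h2).le
    have hpos : 0 < ⟪y, v⟫_ℝ := by
      by_cases hy : y = 0
      · exfalso
        -- then `V = {v}`
        subst hy
        rw [inner_zero_left] at h2
        have hsub : V ⊆ {v} := by
          intro v' hv'
          by_contra hne
          rw [Finset.mem_singleton] at hne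
          have := h3 v' hv' hne
          rw [inner_zero_left] at this
          linarith
        have hVs : (V : Set E3) ⊆ {v} := by
          intro a ha
          exact Finset.mem_singleton.1 (hsub ha)
        have hh : convexHull ℝ (V : Set E3) ⊆ {v} :=
          (convexHull_mono hVs).trans (by rw [convexHull_singleton])
        have h0 : (0 : E3) = v := hh (interior_subset hS)
        have hex : ∃ z : E3, z ≠ 0 := exists_ne 0
        obtain ⟨z, hz⟩ := hex
        obtain ⟨a, ha1, ha2⟩ := pos_near hS hz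
        have ha3 : a = v := hh ha1
        rw [ha3, ← h0, inner_zero_right] at ha2
        exact lt_irrefl _ ha2
      · obtain ⟨a, ha1, ha2⟩ := pos_near hS hy
        exact lt_of_lt_of_le ha2 (le_on_hull (fun b hb => hle b hb) a ha1)
    refine ⟨(⟪y, v⟫_ℝ)⁻¹ • y, ?_, fun v' hv' hne => ?_⟩
    · rw [real_inner_smul_left, inv_mul_cancel₀ hpos.ne']
    · rw [real_inner_smul_left, inv_mul_lt_iff₀ hpos, mul_one]
      exact (h3 v' hv' hne).trans h2
  -- the polar set
  let Q : Set E3 := {y | ∀ v ∈ V, ⟪y, v⟫_ℝ ≤ 1}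
  have hQconv : Convex ℝ Q := by
    have : Q = ⋂ v ∈ V, {y : E3 | ⟪y, v⟫_ℝ ≤ 1} := by
      ext y
      simp [Q]
    rw [this]
    apply convex_iInter₂
    intro v _
    have e : {y : E3 | ⟪y, v⟫_ℝ ≤ 1} = {y : E3 | ⟪v, y⟫_ℝ ≤ 1} := by
      ext y
      simp only [Set.mem_ofPred_eq]
      rw [real_inner_comm]
    rw [e]
    exact convex_halfSpace_le (innerₛₗ ℝ v).isLinear 1
  have hQclosed : IsClosed Q := by
    have : Q = ⋂ v ∈ V, {y : E3 | ⟪y, v⟫_ℝ ≤ 1} := by
      ext y
      simp [Q]
    rw [this]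
    apply isClosed_biInter
    intro v _
    exact isClosed_le (by fun_prop) continuous_const
  obtain ⟨ρ, hρ, hball⟩ := Metric.mem_nhds_iff.1 (mem_interior_iff_mem_nhds.1 hS)
  have hQbdd : Bornology.IsBounded Q := by
    rw [Metric.isBounded_iff_subset_closedBall 0]
    refine ⟨2 / ρ, fun y hy => ?_⟩
    rw [mem_closedBall_zero_iff]
    by_cases hy0 : y = 0
    · rw [hy0, norm_zero]
      positivity
    · have hn : 0 < ‖y‖ := norm_pos_iff.2 hy0
      have h1 : (ρ / 2 / ‖y‖) • y ∈ convexHull ℝ (V : Set E3) := by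
        apply hball
        rw [mem_ball_zero_iff, norm_smul, Real.norm_of_nonneg (by positivity),
          div_mul_cancel₀ _ hn.ne']
        linarith
      have h2 := le_on_hull (fun a ha => hy a ha) _ h1
      rw [real_inner_smul_right, real_inner_self_eq_norm_sq] at h2
      have h3 : ρ / 2 / ‖y‖ * ‖y‖ ^ 2 = ρ / 2 * ‖y‖ := by
        field_simp
      rw [h3] at h2
      rw [le_div_iff₀ hρ]
      linarith
  have hQcomp : IsCompact Q := Metric.isCompact_of_isClosed_isBounded hQclosed hQbdd
  -- extreme points are determined by the tight set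
  have hspan : ∀ y ∈ Q.extremePoints ℝ, ∀ z : E3, (∀ v ∈ T V y, ⟪z, v⟫_ℝ = 0) → z = 0 := by
    intro y hy z hz
    obtain ⟨δ, hδ, h1⟩ := exists_small (A := V) (h := y) (z := z) (fun v hv => hy.1 v hv)
      (fun v hv h1 => hz v (mem_T.2 ⟨hv, h1⟩))
    have ha : y + δ • z ∈ Q := fun v hv => (h1 v hv).1
    have hb : y - δ • z ∈ Q := fun v hv => (h1 v hv).2
    have h2 : y ∈ openSegment ℝ (y + δ • z) (y - δ • z) := by
      refine ⟨1 / 2, 1 / 2, by norm_num, by norm_num, by norm_num, ?_⟩
      module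
    have h3 := hy.2 ha hb h2
    have h4 : δ • z = 0 := by
      have := congrArg (fun x => x - y) h3
      simpa using this
    rcases smul_eq_zero.1 h4 with h5 | h5
    · exact absurd h5 hδ.ne'
    · exact h5
  have huniq : ∀ y ∈ Q.extremePoints ℝ, ∀ y' : E3, (∀ v ∈ T V y, ⟪y', v⟫_ℝ = 1) → y' = y := by
    intro y hy y' hy'
    exact sub_eq_zero.1 (hspan y hy (y' - y) fun v hv => by
      rw [inner_sub_left, hy' v hv, (mem_T.1 hv).2, sub_self])
  have hfin : (Q.extremePoints ℝ).Finite := by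
    apply Set.Finite.of_finite_image (f := fun y => T V y)
    · exact (V.powerset.finite_toSet).subset (by
        rintro _ ⟨y, _, rfl⟩
        rw [Finset.mem_coe, Finset.mem_powerset]
        exact Finset.filter_subset _ _)
    · intro y hy y' hy' he
      simp only at he
      exact (huniq y' hy' y fun v hv => by
        rw [← he] at hv
        exact (mem_T.1 hv).2)
  let H : Finset E3 := hfin.toFinset
  have hH : (H : Set E3) = Q.extremePoints ℝ := by simp [H]
  have hmemH : ∀ h, h ∈ H ↔ h ∈ Q.extremePoints ℝ := fun h => by simp [H]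
  have hhullQ : convexHull ℝ (H : Set E3) = Q := by
    have h1 := closure_convexHull_extremePoints hQcomp hQconv
    rw [← hH, (finite_hull_closed H).closure_eq] at h1
    exact h1
  have hTne : ∀ h ∈ Q.extremePoints ℝ, (T V h).Nonempty := by
    intro h hh
    by_contra hcon
    rw [Finset.not_nonempty_iff_eq_empty] at hcon
    obtain ⟨z, hz⟩ : ∃ z : E3, z ≠ 0 := exists_ne 0
    exact hz (hspan h hh z fun v hv => by rw [hcon] at hv; exact absurd hv (Finset.notMem_empty v))
  refine ⟨V, H, ⟨?_, ?_, ?_, hexpV, ?_⟩, hVc⟩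
  · intro v hv h hh
    exact ((hmemH h).1 hh).1 v hv
  · intro x hx
    by_contra hcon
    obtain ⟨y, c, h1, h2⟩ := sep (convex_convexHull ℝ _) (finite_hull_closed V) hcon
    have hc : 0 < c := by
      have := h1 0 (interior_subset hS)
      rwa [inner_zero_right] at this
    have h3 : c⁻¹ • y ∈ convexHull ℝ (H : Set E3) := by
      rw [hhullQ]
      intro v hv
      rw [real_inner_smul_left, inv_mul_le_iff₀ hc, mul_one]
      exact (h1 v (subset_convexHull ℝ _ hv)).le
    have h4 := le_on_hull (A := (H : Set E3)) (y := x) (c := 1) (fun a ha => by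
      rw [real_inner_comm]; exact hx a ha) _ h3
    rw [real_inner_smul_right, inv_mul_le_iff₀ hc, mul_one, real_inner_comm] at h4
    linarith
  · intro y hy
    rw [hhullQ]
    exact hy
  · intro h hh
    have hh' := (hmemH h).1 hh
    have hcard : (0 : ℝ) < (T V h).card := by
      exact_mod_cast Finset.card_pos.2 (hTne h hh')
    have hcen : ∀ y : E3, ⟪y, cen V h⟫_ℝ = ((T V h).card : ℝ)⁻¹ * ∑ x ∈ T V h, ⟪y, x⟫_ℝ := by
      intro y
      unfold cen
      rw [real_inner_smul_right, inner_sum]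
    refine ⟨cen V h, ?_, fun h' hh'' hne => ?_⟩
    · rw [hcen, Finset.sum_congr rfl fun x hx => (mem_T.1 hx).2]
      rw [Finset.sum_const, nsmul_eq_mul, mul_one, inv_mul_cancel₀ hcard.ne']
    · have hQ' := ((hmemH h').1 hh'').1
      have hle : ∀ x ∈ T V h, ⟪h', x⟫_ℝ ≤ 1 := fun x hx => hQ' x (mem_T.1 hx).1
      have hlt : ∃ x ∈ T V h, ⟪h', x⟫_ℝ < 1 := by
        by_contra hcon
        push Not at hcon
        exact hne (huniq h hh' h' fun x hx => le_antisymm (hle x hx) (hcon x hx))
      rw [hcen, inv_mul_lt_iff₀ hcard, mul_one]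
      have h5 : ∑ x ∈ T V h, ⟪h', x⟫_ℝ < ∑ x ∈ T V h, (1 : ℝ) :=
        Finset.sum_lt_sum hle hlt
      rw [Finset.sum_const, nsmul_eq_mul, mul_one] at h5
      exact h5

end Pool.Agent.L7h69.SY
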