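import Pool.Agent.L7h69.SY.Lin

/-!
# Project SY, part EXA: stacking four orbits of triangular facets at generic points
-/

set_option autoImplicit false

namespace Pool.Agent.L7h69.SY

open scoped InnerProductSpace
open Module Classical Pool.Agent.L7h98.SY

section

variable {G : Subgroup (E3 ≃ₗᵢ[ℝ] E3)} {V H : Finset E3}

lemma T_map (gp : GP G V H) {g : E3 ≃ₗᵢ[ℝ] E3} (hg : g ∈ G) (h : E3) :
    T V (g h) = (T V h).image g := by
  ext x
  rw [mem_T, Finset.mem_image]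
  constructor
  · rintro ⟨hx, h1⟩
    obtain ⟨x', hx', rfl⟩ := maps_onto g.injective (gp.2.1 g hg) x hx
    rw [g.inner_map_map] at h1
    exact ⟨x', mem_T.2 ⟨hx', h1⟩, rfl⟩
  · rintro ⟨x', hx', rfl⟩
    rw [mem_T] at hx'
    rw [g.inner_map_map]
    exact ⟨gp.2.1 g hg x' hx'.1, hx'.2⟩

lemma T_map_card (gp : GP G V H) {g : E3 ≃ₗᵢ[ℝ] E3} (hg : g ∈ G) (h : E3) :
    (T V (g h)).card = (T V h).card := by
  rw [T_map gp hg, Finset.card_image_of_injective _ g.injective]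

lemma cen_map (gp : GP G V H) {g : E3 ≃ₗᵢ[ℝ] E3} (hg : g ∈ G) (h : E3) :
    cen V (g h) = g (cen V h) := by
  unfold cen
  rw [T_map_card gp hg, T_map gp hg, Finset.sum_image (fun x _ y _ e => g.injective e), map_smul,
    map_sum]

/-- the convex hull of an invariant finite set is invariant -/
lemma hull_inv {V' : Finset E3} {g : E3 ≃ₗᵢ[ℝ] E3} (h : ∀ v ∈ V', g v ∈ V') :
    g '' convexHull ℝ (V' : Set E3) = convexHull ℝ (V' : Set E3) := by
  have h1 : (lin g) '' convexHull ℝ (V' : Set E3) = convexHull ℝ ((lin g) '' (V' : Set E3)) :=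
    LinearMap.image_convexHull _ _
  have h2 : (lin g) '' (V' : Set E3) = (V' : Set E3) := by
    apply Set.Subset.antisymm
    · rintro _ ⟨v, hv, rfl⟩
      exact h v hv
    · intro v hv
      obtain ⟨v', hv', e⟩ := maps_onto g.injective h v hv
      exact ⟨v', hv', e⟩
  rw [h2] at h1
  exact h1

end

theorem s_EXA (hs : S_STK) (hl : S_LIN) (hg : S_GEN) (hb : S_BAS) : S_EXA := by
  intro G _ V H gp f hf hff
  haveI : Fintype G := Fintype.ofFinite G
  obtain ⟨p, hV, hH⟩ := gp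
  have gp : GP G V H := ⟨p, hV, hH⟩
  let pt : G × Fin 4 → E3 := fun q => (q.1 : E3 ≃ₗᵢ[ℝ] E3) (f q.2)
  have hinj : Function.Injective pt := by
    rintro ⟨g, i⟩ ⟨g', j⟩ h
    simp only [pt] at h
    have h1 : ((g' : E3 ≃ₗᵢ[ℝ] E3)⁻¹ * (g : E3 ≃ₗᵢ[ℝ] E3)) (f i) = f j := by
      rw [LinearIsometryEquiv.coe_mul, Function.comp_apply, h]
      exact (g' : E3 ≃ₗᵢ[ℝ] E3).symm_apply_apply (f j)
    have hmem : (g' : E3 ≃ₗᵢ[ℝ] E3)⁻¹ * (g : E3 ≃ₗᵢ[ℝ] E3) ∈ G := G.mul_mem (G.inv_mem g'.2) g.2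
    have h2 : i = j := hff i j _ hmem h1
    subst h2
    have h3 := (hf i).2.2 _ hmem h1
    have h4 : (g : E3 ≃ₗᵢ[ℝ] E3) = g' := by
      rw [inv_mul_eq_one] at h3
      exact h3.symm
    have h5 : g = g' := Subtype.ext h4
    rw [h5]
  let F : Finset E3 := Finset.univ.image pt
  have hFmem : ∀ h, h ∈ F ↔ ∃ q, pt q = h := fun h => by simp [F]
  have hFcard : F.card = 4 * Nat.card G := by
    rw [Finset.card_image_of_injective _ hinj, Finset.card_univ, Fintype.card_prod,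
      Fintype.card_fin, Nat.card_eq_fintype_card, mul_comm]
  have hFH : F ⊆ H := by
    intro h hh
    obtain ⟨q, rfl⟩ := (hFmem h).1 hh
    exact hH _ q.1.2 _ (hf q.2).1
  have hF3 : ∀ h ∈ F, (T V h).card = 3 := by
    intro h hh
    obtain ⟨q, rfl⟩ := (hFmem h).1 hh
    rw [T_map_card gp q.1.2]
    exact (hf q.2).2.1
  obtain ⟨ε₀, hε₀, hstk⟩ := hs V H F p hFH hF3
  obtain ⟨r, hr, hstk⟩ := hstk (ε₀ / 2) (by positivity) (by linarith)
  set ε := ε₀ / 2 with hε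
  -- generic points
  let U : Set (Fin 4 → E3) := {w | ∀ i, ‖w i - (1 + ε) • cen V (f i)‖ < r}
  have hUo : IsOpen U := by
    have : U = ⋂ i, {w : Fin 4 → E3 | ‖w i - (1 + ε) • cen V (f i)‖ < r} := by
      ext w
      simp [U]
    rw [this]
    apply isOpen_iInter_of_finite
    intro i
    exact isOpen_lt (by fun_prop) continuous_const
  have hUne : U.Nonempty := ⟨fun i => (1 + ε) • cen V (f i), fun i => by simpa using hr⟩
  have hspan : Submodule.span ℝ (V : Set E3) = ⊤ := by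
    have h1 := (hb V H p).1 (f 0) (hf 0).1
    apply span_top
    intro z hz
    exact h1 z fun v hv => hz v (mem_T.1 hv).1
  obtain ⟨w, hwU, hgen⟩ := hg G V hspan U hUo hUne
  -- the new points
  let W : E3 → E3 := fun h => if hx : ∃ q, pt q = h then
    (hx.choose.1 : E3 ≃ₗᵢ[ℝ] E3) (w hx.choose.2) else 0
  have hW : ∀ q, W (pt q) = (q.1 : E3 ≃ₗᵢ[ℝ] E3) (w q.2) := by
    intro q
    have hx : ∃ q', pt q' = pt q := ⟨q, rfl⟩
    have h1 : hx.choose = q := hinj hx.choose_spec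
    simp only [W, dif_pos hx]
    rw [h1]
  obtain ⟨k, stk⟩ := hstk W (by
    intro h hh
    obtain ⟨q, rfl⟩ := (hFmem h).1 hh
    have e : (1 + ε) • cen V (pt q) = (q.1 : E3 ≃ₗᵢ[ℝ] E3) ((1 + ε) • cen V (f q.2)) := by
      rw [map_smul, ← cen_map gp q.1.2]
    rw [hW, e, ← map_sub, LinearIsometryEquiv.norm_map]
    exact hwU q.2)
  have hmem : ∀ x, x ∈ newV V F W ↔ (x ∈ V ∨ ∃ i, ∃ g ∈ G, g (w i) = x) := by
    intro x
    unfold newV
    rw [Finset.mem_union, Finset.mem_image]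
    constructor
    · rintro (h | ⟨h, hh, rfl⟩)
      · exact Or.inl h
      · obtain ⟨q, rfl⟩ := (hFmem h).1 hh
        exact Or.inr ⟨q.2, q.1, q.1.2, (hW q).symm⟩
    · rintro (h | ⟨i, g, hg', rfl⟩)
      · exact Or.inl h
      · exact Or.inr ⟨pt (⟨g, hg'⟩, i), (hFmem _).2 ⟨_, rfl⟩, hW _⟩
  have hinv : ∀ g ∈ G, ∀ v ∈ newV V F W, g v ∈ newV V F W := by
    intro g hgG v hv
    rw [hmem] at hv ⊢
    rcases hv with h | ⟨i, g', hg', rfl⟩
    · exact Or.inl (hV g hgG v h)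
    · exact Or.inr ⟨i, g * g', G.mul_mem hgG hg', rfl⟩
  refine ⟨newV V F W, newH V H F k, ⟨stk.pair, hinv, fun g hgG =>
    (hl.2 _ _ stk.pair g (hull_inv (hinv g hgG))).2⟩, ?_, ?_, ?_⟩
  · rw [stk.cardV, hFcard]
  · rw [stk.cardH, hFcard]
    ring
  · unfold Exact
    ext A
    constructor
    · intro hA
      have hA' : A '' convexHull ℝ ((newV V F W : Finset E3) : Set E3) =
        convexHull ℝ ((newV V F W : Finset E3) : Set E3) := hA
      obtain ⟨hbij, hmaps⟩ := hl.1 _ _ stk.pair A hA'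
      exact hgen A hbij.1 fun x hx => (hmem _).1 (hmaps x ((hmem x).2 hx))
    · rintro ⟨g, hgG, rfl⟩
      exact hull_inv (hinv g hgG)

end Pool.Agent.L7h69.SY
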