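import Pool.Agent.L7h69.SY.Bas

/-!
# Project SY, part GEN: generic points kill all symmetries except `G`
-/

set_option autoImplicit false

namespace Pool.Agent.L7h69.SY

open scoped InnerProductSpace
open Module Classical Pool.Agent.L7h98.SY

/-- finitely many closed sets: a nonempty open set on which each of them is empty or everything -/
lemma exists_open {X : Type*} [TopologicalSpace X] {ι : Type*} (s : Finset ι) (Z : ι → Set X)
    (hZ : ∀ i, IsClosed (Z i)) (U : Set X) (hU : IsOpen U) (hne : U.Nonempty) :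
    ∃ U' ⊆ U, IsOpen U' ∧ U'.Nonempty ∧ ∀ i ∈ s, (∀ x ∈ U', x ∉ Z i) ∨ U' ⊆ Z i := by
  induction s using Finset.induction_on with
  | empty => exact ⟨U, le_rfl, hU, hne, fun i hi => absurd hi (Finset.notMem_empty i)⟩
  | insert a s _ ih =>
    obtain ⟨U', h1, h2, h3, h4⟩ := ih
    by_cases h5 : U' ⊆ Z a
    · refine ⟨U', h1, h2, h3, fun i hi => ?_⟩
      rcases Finset.mem_insert.1 hi with rfl | hi
      · exact Or.inr h5
      · exact h4 i hi
    · obtain ⟨x, hx1, hx2⟩ := Set.not_subset.1 h5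
      refine ⟨U' \ Z a, fun y hy => h1 hy.1, h2.sdiff (hZ a), ⟨x, hx1, hx2⟩, fun i hi => ?_⟩
      rcases Finset.mem_insert.1 hi with rfl | hi
      · exact Or.inl fun y hy => hy.2
      · rcases h4 i hi with h6 | h6
        · exact Or.inl fun y hy => h6 y hy.1
        · exact Or.inr fun y hy => h6 hy.1

/-- the labels -/
abbrev Lab (G : Subgroup (E3 ≃ₗᵢ[ℝ] E3)) (V : Finset E3) := V ⊕ (G × Fin 4)

/-- the point with a label -/
noncomputable def loc (G : Subgroup (E3 ≃ₗᵢ[ℝ] E3)) (V : Finset E3) (w : Fin 4 → E3) : Lab G V → E3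
  | Sum.inl v => (v : E3)
  | Sum.inr gi => (gi.1 : E3 ≃ₗᵢ[ℝ] E3) (w gi.2)

lemma loc_cont (G : Subgroup (E3 ≃ₗᵢ[ℝ] E3)) (V : Finset E3) (s : Lab G V) :
    Continuous fun w => loc G V w s := by
  rcases s with v | gi
  · exact continuous_const
  · exact (gi.1 : E3 ≃ₗᵢ[ℝ] E3).continuous.comp (continuous_apply gi.2)

lemma exists_lab {G : Subgroup (E3 ≃ₗᵢ[ℝ] E3)} {V : Finset E3} {w : Fin 4 → E3} {x : E3}
    (h : x ∈ V ∨ ∃ i, ∃ g ∈ G, g (w i) = x) : ∃ s : Lab G V, loc G V w s = x := by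
  rcases h with h | ⟨i, g, hg, h⟩
  · exact ⟨Sum.inl ⟨x, h⟩, rfl⟩
  · exact ⟨Sum.inr (⟨g, hg⟩, i), h⟩

/-- does a label use the index `i`? -/
def uses {G : Subgroup (E3 ≃ₗᵢ[ℝ] E3)} {V : Finset E3} (s : Lab G V) (i : Fin 4) : Prop :=
  ∃ g, s = Sum.inr (g, i)

lemma loc_upd {G : Subgroup (E3 ≃ₗᵢ[ℝ] E3)} {V : Finset E3} {s : Lab G V} {i : Fin 4}
    (h : ¬ uses s i) (w : Fin 4 → E3) (x : E3) : loc G V (Function.update w i x) s = loc G V w s := by
  rcases s with v | ⟨g, j⟩
  · rfl
  · have hj : j ≠ i := by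
      rintro rfl
      exact h ⟨g, rfl⟩
    simp [loc, Function.update_of_ne hj]

/-- three labels leave one of the four indices free -/
lemma exists_free {G : Subgroup (E3 ≃ₗᵢ[ℝ] E3)} {V : Finset E3} (s : Fin 3 → Lab G V) :
    ∃ i : Fin 4, ∀ j, ¬ uses (s j) i := by
  by_contra hcon
  push Not at hcon
  choose j g hg using hcon
  have hinj : Function.Injective j := by
    intro a b hab
    have h1 := hg a
    have h2 := hg b
    rw [hab] at h1
    rw [h1] at h2
    have h3 := Sum.inr.inj h2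
    exact congrArg Prod.snd h3
  have := Fintype.card_le_of_injective j hinj
  simp at this

theorem s_GEN : S_GEN := by
  intro G _ V hV U hU hne
  obtain ⟨f, hfV, hfl⟩ := exists_triple hV
  have hfin : finrank ℝ E3 = 3 := by simp [E3]
  let B : Basis (Fin 3) ℝ E3 := basisOfLinearIndependentOfCardEqFinrank hfl (by simp [hfin])
  have hB : ∀ i, B i = f i := fun i => by simp [B]
  -- the linear map determined by three points
  let A : (Fin 3 → E3) → E3 →ₗ[ℝ] E3 := fun a => B.constr ℝ a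
  have hA : ∀ a i, A a (B i) = a i := fun a i => B.constr_basis ℝ a i
  have hAx : ∀ a x, A a x = ∑ i, B.repr x i • a i := fun a x => by
    simp [A, Basis.constr_apply_fintype, B.equivFun_apply]
  let Z : (Fin 3 → Lab G V) × Fin 4 × Lab G V → Set (Fin 4 → E3) := fun σ =>
    {w | A (fun i => loc G V w (σ.1 i)) (w σ.2.1) = loc G V w σ.2.2}
  have hZ : ∀ σ, IsClosed (Z σ) := by
    intro σ
    apply isClosed_eq
    · have : (fun w : Fin 4 → E3 => A (fun i => loc G V w (σ.1 i)) (w σ.2.1)) =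
          fun w => ∑ i, B.repr (w σ.2.1) i • loc G V w (σ.1 i) := by
        ext1 w
        rw [hAx]
      rw [this]
      apply continuous_finsetSum
      intro i _
      have h1 : Continuous fun x : E3 => B.repr x i :=
        (LinearMap.continuous_of_finiteDimensional (B.coord i))
      exact (h1.comp (continuous_apply σ.2.1)).smul (loc_cont G V (σ.1 i))
    · exact loc_cont G V _
  haveI : Fintype G := Fintype.ofFinite G
  obtain ⟨U', hUU, hU'o, ⟨w, hw⟩, hall⟩ := exists_open
    (Finset.univ : Finset ((Fin 3 → Lab G V) × Fin 4 × Lab G V)) Z hZ U hU hne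
  refine ⟨w, hUU hw, ?_⟩
  intro M hM hMx
  have hpts : ∀ i, ∃ s : Lab G V, loc G V w s = M (B i) := fun i =>
    exists_lab (hMx _ (Or.inl (by rw [hB]; exact hfV i)))
  choose s hs using hpts
  obtain ⟨i₀, hi₀⟩ := exists_free s
  obtain ⟨s₄, hs₄⟩ := exists_lab (hMx (w i₀) (Or.inr ⟨i₀, 1, G.one_mem, rfl⟩))
  have hMA : ∀ w' : Fin 4 → E3, (∀ i, loc G V w' (s i) = M (B i)) →
      A (fun i => loc G V w' (s i)) = M := by
    intro w' hw'
    apply B.ext
    intro i
    rw [hA, hw']
  have hwZ : w ∈ Z (s, i₀, s₄) := by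
    change A (fun i => loc G V w (s i)) (w i₀) = loc G V w s₄
    rw [hMA w hs, hs₄]
  have hU'Z : U' ⊆ Z (s, i₀, s₄) := by
    rcases hall (s, i₀, s₄) (Finset.mem_univ _) with h | h
    · exact absurd hwZ (h w hw)
    · exact h
  -- perturb `w i₀`
  have hpert : ∀ᶠ u : E3 in nhds 0, M (w i₀ + u) =
      loc G V (Function.update w i₀ (w i₀ + u)) s₄ := by
    have hc : Filter.Tendsto (fun u : E3 => Function.update w i₀ (w i₀ + u)) (nhds 0) (nhds w) := by
      have h1 : Continuous (fun u : E3 => Function.update w i₀ (w i₀ + u)) :=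
        continuous_const.update i₀ (by fun_prop)
      have h2 := h1.tendsto 0
      simpa using h2
    filter_upwards [hc.eventually (hU'o.mem_nhds hw)] with u hu
    have h3 := hU'Z hu
    change A (fun i => loc G V (Function.update w i₀ (w i₀ + u)) (s i))
      (Function.update w i₀ (w i₀ + u) i₀) = _ at h3
    rw [hMA _ (fun i => by rw [loc_upd (hi₀ i), hs]), Function.update_self] at h3
    exact h3
  -- a linear map which vanishes near zero vanishes
  have hzero : ∀ D : E3 →ₗ[ℝ] E3, (∀ᶠ u : E3 in nhds 0, D u = 0) → D = 0 := by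
    intro D hD
    ext1 x
    have hc : Filter.Tendsto (fun t : ℝ => t • x) (nhdsWithin 0 (Set.Ioi 0)) (nhds 0) := by
      have h1 : Continuous (fun t : ℝ => t • x) := by fun_prop
      have h2 := h1.tendsto 0
      rw [zero_smul] at h2
      exact h2.mono_left nhdsWithin_le_nhds
    obtain ⟨t, ht1, ht2⟩ := ((hc.eventually hD).and self_mem_nhdsWithin).exists
    rw [map_smul] at ht1
    rcases smul_eq_zero.1 ht1 with h | h
    · exact absurd h (ne_of_gt ht2)
    · simpa using h
  by_cases hu : uses s₄ i₀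
  · obtain ⟨g, rfl⟩ := hu
    refine ⟨g, g.2, ?_⟩
    have h0 : M (w i₀) = (g : E3 ≃ₗᵢ[ℝ] E3) (w i₀) := hs₄.symm
    have h1 : lin (g : E3 ≃ₗᵢ[ℝ] E3) - M = 0 := by
      apply hzero
      filter_upwards [hpert] with u hu
      have h2 : M (w i₀ + u) = (g : E3 ≃ₗᵢ[ℝ] E3) (w i₀ + u) := by
        rw [hu]
        simp [loc]
      rw [map_add, map_add, h0] at h2
      have h3 := add_left_cancel h2
      change (g : E3 ≃ₗᵢ[ℝ] E3) u - M u = 0
      rw [h3, sub_self]
    exact sub_eq_zero.1 h1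
  · exfalso
    have h1 : M = 0 := by
      apply hzero
      filter_upwards [hpert] with u hu'
      rw [loc_upd hu, hs₄, map_add] at hu'
      simpa using hu'
    have h2 : (B 0 : E3) = 0 := hM (by rw [h1]; simp)
    exact B.ne_zero 0 h2

end Pool.Agent.L7h69.SY
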