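import Pool.Agent.L7h69.SY.Bas

/-!
# Project SY, part LIN: linear symmetries permute the vertices and facets
-/

set_option autoImplicit false

namespace Pool.Agent.L7h69.SY

open scoped InnerProductSpace
open Module Classical Pool.Agent.L7h98.SY

lemma lin_bij {V H : Finset E3} (hb : S_BAS) (p : Pair V H) (A : E3 →ₗ[ℝ] E3)
    (hA : A '' convexHull ℝ (V : Set E3) = convexHull ℝ (V : Set E3)) : Function.Bijective A := by
  have h0 := (hb V H p).2.2.2.1
  have hsurj : Function.Surjective A := by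
    rw [← LinearMap.range_eq_top]
    apply Submodule.eq_top_of_nonempty_interior'
    refine ⟨0, interior_mono ?_ h0⟩
    rw [← hA]
    rintro _ ⟨x, _, rfl⟩
    exact LinearMap.mem_range_self A x
  exact ⟨LinearMap.injective_iff_surjective.2 hsurj, hsurj⟩

/-- the points of `V` are extreme points of `conv V` -/
lemma extreme_of_pair {V H : Finset E3} (p : Pair V H) {v : E3} (hv : v ∈ V) {a b : ℝ}
    (ha : 0 < a) (hb : 0 < b) (hab : a + b = 1) {u₁ u₂ : E3}
    (h1 : u₁ ∈ convexHull ℝ (V : Set E3)) (h2 : u₂ ∈ convexHull ℝ (V : Set E3))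
    (h : a • u₁ + b • u₂ = v) : u₁ = v := by
  obtain ⟨y, hy1, hy2⟩ := p.expV v hv
  have hle : ∀ v' ∈ V, ⟪y, v'⟫_ℝ ≤ 1 := by
    intro v' hv'
    by_cases e : v' = v
    · rw [e, hy1]
    · exact (hy2 v' hv' e).le
  have e1 := le_on_hull (fun b hb => hle b hb) u₁ h1
  have e2 := le_on_hull (fun b hb => hle b hb) u₂ h2
  have e3 : a * ⟪y, u₁⟫_ℝ + b * ⟪y, u₂⟫_ℝ = 1 := by
    rw [← real_inner_smul_right, ← real_inner_smul_right, ← inner_add_right, h, hy1]
  have e4 : ⟪y, u₁⟫_ℝ = 1 := by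
    by_contra hne
    have e5 : ⟪y, u₁⟫_ℝ < 1 := lt_of_le_of_ne e1 hne
    nlinarith [mul_lt_mul_of_pos_left e5 ha, mul_le_mul_of_nonneg_left e2 hb.le]
  exact eq_of_expose hv (by rw [real_inner_comm]; exact hy1)
    (fun v' hv' hne => by rw [real_inner_comm]; exact hy2 v' hv' hne) h1
    (by rw [real_inner_comm]; exact e4)

lemma lin_maps {V H : Finset E3} (hb : S_BAS) (p : Pair V H) (A : E3 →ₗ[ℝ] E3)
    (hA : A '' convexHull ℝ (V : Set E3) = convexHull ℝ (V : Set E3)) : ∀ v ∈ V, A v ∈ V := by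
  have hbij := lin_bij hb p A hA
  intro v hv
  have hext : A v ∈ (convexHull ℝ (V : Set E3)).extremePoints ℝ := by
    refine ⟨?_, ?_⟩
    · rw [← hA]
      exact ⟨v, subset_convexHull ℝ _ hv, rfl⟩
    · intro x₁ hx₁ x₂ hx₂ hseg
      rw [← hA] at hx₁ hx₂
      obtain ⟨u₁, hu₁, rfl⟩ := hx₁
      obtain ⟨u₂, hu₂, rfl⟩ := hx₂
      obtain ⟨a, b, ha, hb', hab, he⟩ := hseg
      have h1 : a • u₁ + b • u₂ = v := hbij.1 (by
        rw [map_add, map_smul, map_smul, he])
      rw [extreme_of_pair p hv ha hb' hab hu₁ hu₂ h1]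
  exact extremePoints_convexHull_subset hext

/-- an injective self-map of a finite set is onto -/
lemma maps_onto {V : Finset E3} {g : E3 → E3} (hg : Function.Injective g) (h : ∀ v ∈ V, g v ∈ V) :
    ∀ v ∈ V, ∃ v' ∈ V, g v' = v := by
  have h1 : V.image g = V := by
    apply Finset.eq_of_subset_of_card_le
    · intro x hx
      obtain ⟨v, hv, rfl⟩ := Finset.mem_image.1 hx
      exact h v hv
    · rw [Finset.card_image_of_injective _ hg]
  intro v hv
  rw [← h1] at hv
  obtain ⟨v', hv', e⟩ := Finset.mem_image.1 hv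
  exact ⟨v', hv', e⟩

theorem s_LIN (hb : S_BAS) : S_LIN := by
  refine ⟨fun V H p A hA => ⟨lin_bij hb p A hA, lin_maps hb p A hA⟩, fun V H p g hg => ?_⟩
  have hgl : ∀ B : Set E3, (lin g) '' B = g '' B := fun B => rfl
  have h1 : ∀ v ∈ V, g v ∈ V := fun v hv =>
    lin_maps hb p (lin g) (by rw [hgl]; exact hg) v hv
  have honto := maps_onto g.injective h1
  have hpol := (hb H V p.symm).2.2.1
  have h2 : g '' convexHull ℝ (H : Set E3) = convexHull ℝ (H : Set E3) := by
    rw [hpol]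
    apply Set.Subset.antisymm
    · rintro _ ⟨y, hy, rfl⟩
      intro v hv
      obtain ⟨v', hv', rfl⟩ := honto v hv
      rw [g.inner_map_map]
      exact hy v' hv'
    · intro y hy
      refine ⟨g.symm y, fun v hv => ?_, g.apply_symm_apply y⟩
      have h3 := hy (g v) (h1 v hv)
      rw [← g.inner_map_map, g.apply_symm_apply]
      exact h3
  exact ⟨h1, fun h hh => lin_maps hb p.symm (lin g) (by rw [hgl]; exact h2) h hh⟩

end Pool.Agent.L7h69.SY
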